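import Pool.Agent.helper56.RT.Basic

/-!
# Robustly total names, module RT-Reduce: reduction to reals which dominate along their initial parts

Paper proof.  `code σ = Encodable.encode σ`.  `Stage 0 σ` iff `σ = []`; `Stage (i+1) σ` iff there is
`τ` with `Stage i τ`, `τ <:+ σ`, `σ.length = code τ + 1`.
`d' i m = {p | ∃ σ, Stage (i+1) σ ∧ code σ = m ∧ Fc d p σ}`.
(0) uniqueness: `Stage i σ`, `Stage i σ'`, both initial parts of one list (or both forced by one
condition, `Fc.comp`) imply `σ = σ'` (induction on `i`).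
(1) `d' i m ∈ A`: if some (unique, `code` is injective) `σ` has `Stage (i+1) σ`, `code σ = m`, it is
`{p | Fc d p σ}` (`fc_mem`), otherwise `∅` (`empty_mem`).  Then `Name d'`: `reg` from `hA.reg`, `disj`
from (0).
(2) tree domination: `Fc d' r u` implies that there is `σ` with `Stage u.length σ`, `Fc d r σ`,
`u.length ≤ σ.length`, all entries of `u` `≤ code σ`, and if `u = x :: v` then `x = code σ` (induction on
`u`, `code_suf`).  Given `h : List ℕ → ℕ` let `g n` be the maximum of `h u` over the finite set of the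
lists `u` of length `≤ n` with all entries `≤ n` (see `HM/Reduce.lean`, where this is done).  Let
`q ≤ p`, `N` with `g n ≤ m` for `n ≥ N`, `r ≤ q`, `r ∈ d n m` (`hdom g`).  If `r ≤ q`, `N ≤ u.length`,
`Fc d' r (x :: u)`: `σ` for `x :: u`, `τ` for `u`, `σ.length = code τ + 1` by (0), `σ = y :: σ'`,
`r ∈ d (code τ) y`, so `h u ≤ g (code τ) ≤ y ≤ code σ = x`, as `N ≤ u.length ≤ τ.length ≤ code τ`.
(3) `Robust b p0 d'`: given `Φ, p` show by induction on `i` that there is `q ≤ p` with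
`2 * q.F.card ≤ q.len`, `Capt Φ p.len q` and `σ` with `Stage i σ`, `Fc d q σ`: in the step apply
`Robust.pre` with `k = code τ + 1` to `q`, `Capt.trans`, `Fc.comp`.  Then take `i = n + 1`.
-/

set_option autoImplicit false

namespace Pool.Agent.helper56.RT

open Set
open Pool.Agent.helper45.LOC (Loc IsSub Dominating)

namespace Red

/-- the code of a list -/
def cd (σ : List ℕ) : ℕ := Encodable.encode σ

theorem cd_inj {σ τ : List ℕ} (h : cd σ = cd τ) : σ = τ := Encodable.encode_injective h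

theorem length_le_cd (σ : List ℕ) : σ.length ≤ cd σ := Encodable.length_le_encode σ

theorem cd_suf {σ τ : List ℕ} (h : σ <:+ τ) : cd σ ≤ cd τ := by
  induction τ with
  | nil => rw [List.suffix_nil.1 h]
  | cons x τ ih =>
    rcases List.suffix_cons_iff.1 h with rfl | h'
    · exact le_rfl
    · refine (ih h').trans ?_
      show Encodable.encode τ ≤ Encodable.encode (x :: τ)
      rw [Encodable.encode_list_cons]
      exact (Nat.right_le_pair _ _).trans (Nat.le_succ _)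

theorem le_cd_cons (x : ℕ) (τ : List ℕ) : x ≤ cd (x :: τ) := by
  show x ≤ Encodable.encode (x :: τ)
  rw [Encodable.encode_list_cons]
  exact (Nat.left_le_pair _ _).trans (Nat.le_succ _)

theorem fin_lists (n : ℕ) : {u : List ℕ | u.length ≤ n ∧ ∀ c ∈ u, c ≤ n}.Finite := by
  refine ((List.finite_length_le (Fin (n + 1)) n).image (List.map Fin.val)).subset ?_
  rintro u ⟨h1, h2⟩
  refine ⟨u.pmap (fun c hc => (⟨c, Nat.lt_succ_of_le hc⟩ : Fin (n + 1))) h2, ?_, ?_⟩
  · show (u.pmap _ h2).length ≤ n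
    rw [List.length_pmap]
    exact h1
  · rw [List.map_pmap]
    exact List.pmap_eq_self.2 fun a ha => rfl

/-- the stages: `v_0 = []`, `v_(i+1)` has length `cd v_i + 1` -/
def Stage : ℕ → List ℕ → Prop
  | 0, σ => σ = []
  | i + 1, σ => ∃ τ, Stage i τ ∧ τ <:+ σ ∧ σ.length = cd τ + 1

theorem Stage.uniq {i : ℕ} {σ σ' ρ : List ℕ} (h : Stage i σ) (h' : Stage i σ') (hσ : σ <:+ ρ)
    (hσ' : σ' <:+ ρ) : σ = σ' := by
  induction i generalizing σ σ' with
  | zero =>
    have h1 : σ = [] := h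
    have h2 : σ' = [] := h'
    rw [h1, h2]
  | succ i ih =>
    obtain ⟨τ, h1, h2, h3⟩ := h
    obtain ⟨τ', h1', h2', h3'⟩ := h'
    have h4 : τ = τ' := ih h1 h1' (h2.trans hσ) (h2'.trans hσ')
    subst h4
    have h5 : σ.length = σ'.length := by rw [h3, h3']
    exact (List.suffix_of_suffix_length_le hσ hσ' h5.le).eq_of_length h5

variable {d : ℕ → ℕ → Set Loc}

theorem Stage.fc_uniq (hd : Name d) {i : ℕ} {σ σ' : List ℕ} {p : Loc} (h : Stage i σ)
    (h' : Stage i σ') (hσ : Fc d p σ) (hσ' : Fc d p σ') : σ = σ' := by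
  rcases le_total σ.length σ'.length with hl | hl
  · exact h.uniq h' (Fc.comp hd hσ hσ' hl) List.suffix_rfl
  · exact h.uniq h' List.suffix_rfl (Fc.comp hd hσ' hσ hl)

/-- the codes of the stages -/
def nm (d : ℕ → ℕ → Set Loc) (i m : ℕ) : Set Loc :=
  {p | ∃ σ, Stage (i + 1) σ ∧ cd σ = m ∧ Fc d p σ}

theorem nm_mem {A : Set (Set Loc)} (hA : IsSub A) (hmem : ∀ n m, d n m ∈ A) (i m : ℕ) :
    nm d i m ∈ A := by
  by_cases h : ∃ σ, Stage (i + 1) σ ∧ cd σ = m
  · obtain ⟨σ, h1, h2⟩ := h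
    have h3 : nm d i m = {p | Fc d p σ} := by
      ext p
      constructor
      · rintro ⟨σ', -, h5, h6⟩
        have h7 : σ' = σ := cd_inj (h5.trans h2.symm)
        rw [h7] at h6
        exact h6
      · intro hp
        exact ⟨σ, h1, h2, hp⟩
    rw [h3]
    exact fc_mem hA hmem σ
  · have h3 : nm d i m = ∅ := by
      ext p
      constructor
      · rintro ⟨σ', h4, h5, -⟩
        exact absurd ⟨σ', h4, h5⟩ h
      · intro hp
        exact absurd hp (notMem_empty p)
    rw [h3]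
    exact empty_mem hA

theorem nm_name {A : Set (Set Loc)} (hA : IsSub A) (hmem : ∀ n m, d n m ∈ A) (hd : Name d) :
    Name (nm d) := by
  refine ⟨fun n m => hA.reg _ (nm_mem hA hmem n m), ?_⟩
  intro n m m' hne
  ext p
  constructor
  · rintro ⟨⟨σ, h1, h2, h3⟩, ⟨σ', h1', h2', h3'⟩⟩
    have h4 : σ = σ' := h1.fc_uniq hd h1' h3 h3'
    rw [h4] at h2
    exact absurd (h2.symm.trans h2') hne
  · intro hp
    exact absurd hp (notMem_empty p)

theorem fc_stage (hd : Name d) {r : Loc} {u : List ℕ} (h : Fc (nm d) r u) :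
    ∃ σ, Stage u.length σ ∧ Fc d r σ ∧ u.length ≤ σ.length ∧ (∀ c ∈ u, c ≤ cd σ) := by
  induction u with
  | nil => exact ⟨[], rfl, trivial, le_rfl, fun c hc => absurd hc List.not_mem_nil⟩
  | cons x u ih =>
    obtain ⟨⟨σ, h1, h2, h3⟩, h4⟩ := h
    obtain ⟨τ, h5, h6, h7, h8⟩ := ih h4
    obtain ⟨τ', h9, h10, h11⟩ := id h1
    have h12 : τ' = τ := h9.fc_uniq hd h5 (h3.suf h10) h6
    subst h12
    refine ⟨σ, h1, h3, ?_, ?_⟩
    · have h13 := length_le_cd τ'
      rw [List.length_cons, h11]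
      omega
    · intro c hc
      rcases List.mem_cons.1 hc with h14 | h14
      · rw [h14, h2]
      · exact (h8 c h14).trans (cd_suf h10)

theorem nm_treeDom (hd : Name d) {p0 : Loc} (hdom : Dominating p0 d) : TreeDom (nm d) p0 := by
  intro h p hp
  obtain ⟨g, hg⟩ : ∃ g : ℕ → ℕ, ∀ n u, u.length ≤ n → (∀ c ∈ u, c ≤ n) → h u ≤ g n := by
    refine ⟨fun n => (fin_lists n).toFinset.sup h, fun n u h1 h2 => ?_⟩
    exact Finset.le_sup (f := h) ((fin_lists n).mem_toFinset.2 ⟨h1, h2⟩)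
  obtain ⟨q, hq, N, hN⟩ := hdom g p hp
  refine ⟨q, hq, N, ?_⟩
  intro r hr u x hu hfc
  obtain ⟨⟨σ, h1, h2, h3⟩, h4⟩ := hfc
  obtain ⟨τ, h5, h6, h7, h8⟩ := fc_stage hd h4
  obtain ⟨τ', h9, h10, h11⟩ := id h1
  have h12 : τ' = τ := h9.fc_uniq hd h5 (h3.suf h10) h6
  subst h12
  cases σ with
  | nil => simp at h11
  | cons y σ' =>
    have h13 : σ'.length = cd τ' := by simpa using h11
    have h14 : r ∈ d (cd τ') y := by
      have := h3.1
      rwa [h13] at this
    have h15 := length_le_cd τ'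
    have h16 := hN (cd τ') (by omega) y r hr h14
    refine (hg (cd τ') u (by omega) h8).trans (h16.trans ?_)
    rw [← h2]
    exact le_cd_cons _ _

theorem nm_robust (hd : Name d) {p0 : Loc} {b : ℕ → ℕ} (hb : ∀ i, 2 * b i ≤ i)
    (hrob : Robust b p0 d) : Robust b p0 (nm d) := by
  intro Φ hΦ n p hp hp2
  have key : ∀ i, ∃ q ≤ p, 2 * q.F.card ≤ q.len ∧ Capt Φ p.len q ∧
      ∃ σ, Stage i σ ∧ Fc d q σ := by
    intro i
    induction i with
    | zero =>
      refine ⟨p, p.refl, hp2, fun i h1 h2 => ?_, [], rfl, trivial⟩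
      omega
    | succ i ih =>
      obtain ⟨q, hq, hq2, hc, τ, hτ, hfτ⟩ := ih
      obtain ⟨q', hq', hq2', hc', u, hu, hfu⟩ :=
        hrob.pre hd hb hΦ (cd τ + 1) (Loc.trans hq hp) hq2
      have h1 := length_le_cd τ
      exact ⟨q', Loc.trans hq' hq, hq2', hc.trans hq' hc', u,
        ⟨τ, hτ, Fc.comp hd (hfτ.le hd hq') hfu (by omega), hu⟩, hfu⟩
  obtain ⟨q, hq, hq2, hc, σ, hσ, hfσ⟩ := key (n + 1)
  exact ⟨q, hq, hq2, hc, cd σ, σ, hσ, rfl, hfσ⟩

end Red

theorem reduce {A : Set (Set Loc)} (hA : IsSub A) {d : ℕ → ℕ → Set Loc}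
    (hmem : ∀ n m, d n m ∈ A) (hd : Name d) {p0 : Loc} (hdom : Dominating p0 d) {b : ℕ → ℕ}
    (hb : ∀ i, 2 * b i ≤ i) (hrob : Robust b p0 d) :
    ∃ d' : ℕ → ℕ → Set Loc, (∀ n m, d' n m ∈ A) ∧ Name d' ∧ TreeDom d' p0 ∧
      Robust b p0 d' :=
  ⟨Red.nm d, Red.nm_mem hA hmem, Red.nm_name hA hmem hd, Red.nm_treeDom hd hdom,
    Red.nm_robust hd hb hrob⟩

end Pool.Agent.helper56.RT
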