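import Pool.Agent.helper56.RT.Machine
import Pool.Agent.helper56.RT.Reduce

/-!
# Robustly total names for dominating reals: the main theorem
-/

set_option autoImplicit false

namespace Pool.Agent.helper56.RT

open Set Filter
open Pool.Agent.helper45.LOC (Loc IsSub Dominating Loc.refl Loc.trans)
open Pool.Agent.helper45.LOCO (AddsHechler IsReal)
open Pool.Agent.helper56.CI (Slalom Cont Dec psi)

theorem Robust.mono {b b' : ℕ → ℕ} {p0 : Loc} {d : ℕ → ℕ → Set Loc} (h : Robust b p0 d)
    (hb : ∀ i, b' i ≤ b i) : Robust b' p0 d :=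
  fun Φ hΦ n p hp hp2 => h Φ (fun i => (hΦ i).trans (hb i)) n p hp hp2

theorem main {A : Set (Set Loc)} (hA : IsSub A) {p0 : Loc} {d : ℕ → ℕ → Set Loc}
    (hreal : IsReal A p0 d) (hdom : Dominating p0 d) {b : ℕ → ℕ} (hb : Tendsto b atTop atTop)
    (hrob : Robust b p0 d) : AddsHechler A p0 := by
  obtain ⟨b', hb'⟩ : ∃ b' : ℕ → ℕ, b' = fun i => min (b i) (i / 2) := ⟨_, rfl⟩
  have h1 : ∀ i, 2 * b' i ≤ i := by
    intro i
    have h2 : b' i ≤ i / 2 := by rw [hb']; exact min_le_right _ _
    omega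
  have h2 : ∀ k, ∃ N, ∀ i ≥ N, k ≤ b' i := by
    intro k
    obtain ⟨N, hN⟩ := eventually_atTop.1 (tendsto_atTop.1 hb k)
    refine ⟨max N (2 * k), fun i hi => ?_⟩
    rw [hb']
    refine le_min (hN i ((le_max_left _ _).trans hi)) ?_
    have h3 : 2 * k ≤ i := (le_max_right _ _).trans hi
    omega
  have h3 : Robust b' p0 d := hrob.mono fun i => by
    rw [hb']
    exact min_le_left _ _
  obtain ⟨d', g1, g2, g3, g4⟩ := reduce hA hreal.mem
    ⟨fun n m => hA.reg _ (hreal.mem n m), hreal.disj⟩ hdom h1 h3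
  exact machine hA g1 g2 h1 h2 g4 g3

/-- continuous images of the generic slalom are robustly total -/
theorem robust_psi {π : (ℕ → Finset ℕ) → ℕ → ℕ} (hc : Cont π) (p0 : Loc) :
    Robust (fun i => i / 2) p0 (psi π) := by
  classical
  intro Φ hΦ n p _ hp2
  obtain ⟨B, hB⟩ : ∃ B : ℕ → Finset ℕ, B = fun i =>
    if i < p.len then p.s i else (p.F.image fun f => f i) ∪ Φ i := ⟨_, rfl⟩
  have hlt : ∀ i < p.len, B i = p.s i := by
    intro i hi
    rw [hB]
    exact if_pos hi
  have hge : ∀ i, p.len ≤ i → B i = (p.F.image fun f => f i) ∪ Φ i := by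
    intro i hi
    rw [hB]
    exact if_neg (not_lt.2 hi)
  have hBs : Slalom B := by
    intro i
    rcases lt_or_ge i p.len with h | h
    · rw [hlt i h]
      exact p.card_s i h
    · rw [hge i h]
      have h2 := Finset.card_union_le (p.F.image fun f => f i) (Φ i)
      have h3 := Finset.card_image_le (s := p.F) (f := fun f => f i)
      have h4 : (Φ i).card ≤ i / 2 := hΦ i
      omega
  obtain ⟨N, hN⟩ := hc B hBs n
  have hl : p.len ≤ max N p.len := le_max_right _ _
  refine ⟨⟨max N p.len, B, p.F, fun i _ => hBs i, p.card_F.trans hl⟩,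
    ⟨hl, hlt, Finset.Subset.refl _, fun f hf i h1 _ => ?_⟩, ?_, fun i h1 _ => ?_, π B n,
    fun q hq => ⟨q, q.refl, fun A hA hAs => ?_⟩⟩
  · show f i ∈ B i
    rw [hge i h1]
    exact Finset.mem_union_left _ (Finset.mem_image_of_mem _ hf)
  · show 2 * p.F.card ≤ max N p.len
    exact hp2.trans hl
  · show Φ i ⊆ B i
    rw [hge i h1]
    exact Finset.subset_union_right
  · refine hN A hA fun i hi => ?_
    have h1 : i < max N p.len := hi.trans_le (le_max_left _ _)
    have h2 : max N p.len ≤ q.len := hq.1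
    rw [hAs i (h1.trans_le h2)]
    exact hq.2.1 i h1

theorem main_cont {A : Set (Set Loc)} (hA : IsSub A) {p0 : Loc}
    {π : (ℕ → Finset ℕ) → ℕ → ℕ} (hc : Cont π) (hreal : IsReal A p0 (psi π))
    (hdom : Dominating p0 (psi π)) : AddsHechler A p0 :=
  main hA hreal hdom (b := fun i => i / 2) (by
    refine tendsto_atTop.2 fun k => ?_
    filter_upwards [eventually_ge_atTop (2 * k)] with i hi
    omega) (robust_psi hc p0)

end Pool.Agent.helper56.RT
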