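import Pool.Agent.helper45.LOCO.Defs
import Pool.Agent.helper45.LOC.Basic
import Pool.Agent.helper56.CI.Basic

/-!
# Robustly total names for dominating reals: definitions
-/

set_option autoImplicit false

namespace Pool.Agent.helper56.RT

open Pool.Agent.helper45.LOC (Loc Hec IsSub Dominating Reg)

/-- `p` forces that the list `u` (last value first) is an initial segment of `d` -/
def Fc (d : ℕ → ℕ → Set Loc) (p : Loc) : List ℕ → Prop
  | [] => True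
  | x :: u => p ∈ d u.length x ∧ Fc d p u

/-- the stem of `q` captures `Φ` from `n` on -/
def Capt (Φ : ℕ → Finset ℕ) (n : ℕ) (q : Loc) : Prop :=
  ∀ i, n ≤ i → i < q.len → Φ i ⊆ q.s i

/-- below `p0` the values of `d` can be decided while capturing any slalom `Φ` of the ground
model with `|Φ(i)| ≤ b(i)` -/
def Robust (b : ℕ → ℕ) (p0 : Loc) (d : ℕ → ℕ → Set Loc) : Prop :=
  ∀ Φ : ℕ → Finset ℕ, (∀ i, (Φ i).card ≤ b i) → ∀ n, ∀ p ≤ p0, 2 * p.F.card ≤ p.len →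
    ∃ q ≤ p, 2 * q.F.card ≤ q.len ∧ Capt Φ p.len q ∧ ∃ m, q ∈ d n m

/-- `d` dominates the functions of its own initial parts -/
def TreeDom (d : ℕ → ℕ → Set Loc) (p0 : Loc) : Prop :=
  ∀ h : List ℕ → ℕ, ∀ p ≤ p0, ∃ q ≤ p, ∃ N, ∀ r ≤ q, ∀ (u : List ℕ) (x : ℕ), N ≤ u.length →
    Fc d r (x :: u) → h u ≤ x

/-- the node `u` can be reached by a condition whose stem prolongs `A|L`, and which captures the
reals of `F` from `L` on -/
def Reach (d : ℕ → ℕ → Set Loc) (L : ℕ) (A : ℕ → Finset ℕ) (F : Set (ℕ → ℕ))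
    (u : List ℕ) : Prop :=
  ∃ r : Loc, L ≤ r.len ∧ (∀ n < L, r.s n = A n) ∧
    (∀ f ∈ F, f ∈ r.F ∧ ∀ n, L ≤ n → n < r.len → f n ∈ r.s n) ∧ Fc d r u

/-- every real of `F` agrees below `t` with a real of `F'` -/
def Sub (t : ℕ) (F F' : Set (ℕ → ℕ)) : Prop := ∀ f ∈ F, ∃ g ∈ F', ∀ n < t, f n = g n

/-- trees of choices -/
inductive Tr : Type
  | kill : Finset (ℕ → ℕ) → Tr
  | node : Finset (ℕ → ℕ) → ℕ → (ℕ → ℕ → Tr) → Tr

/-- the tree shows that the node `u` with the reals `F` at the time `t` is bad -/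
def Ok (d : ℕ → ℕ → Set Loc) (L : ℕ) (A : ℕ → Finset ℕ) :
    Tr → ℕ → Set (ℕ → ℕ) → List ℕ → Prop
  | .kill F', t, F, u => 2 * F'.card ≤ u.length ∧ Sub t (F' : Set (ℕ → ℕ)) F ∧
      ¬ Reach d L A (F' : Set (ℕ → ℕ)) u
  | .node F' n c, t, F, u => 2 * F'.card ≤ u.length ∧ Sub t (F' : Set (ℕ → ℕ)) F ∧
      ∀ x ≥ n, ∀ t', Ok d L A (c x t') t' (F' : Set (ℕ → ℕ)) (x :: u)

/-- the node `u` with the reals `F` at the time `t` is good -/
def Good (d : ℕ → ℕ → Set Loc) (L : ℕ) (A : ℕ → Finset ℕ) (t : ℕ) (F : Set (ℕ → ℕ))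
    (u : List ℕ) : Prop :=
  ∀ T, ¬ Ok d L A T t F u

/-- what is used of the names -/
structure Name (d : ℕ → ℕ → Set Loc) : Prop where
  reg : ∀ n m, Reg (d n m)
  disj : ∀ n m m', m ≠ m' → d n m ∩ d n m' = ∅

end Pool.Agent.helper56.RT
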