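import Pool.Agent.helper45.LOCO.Basic
import Pool.Agent.helper56.RT.Defs

/-!
# Robustly total names: elementary facts
-/

set_option autoImplicit false

namespace Pool.Agent.helper56.RT

open Set
open Pool.Agent.helper45.LOC (Loc Hec IsSub Dominating Loc.refl Loc.trans Reg)
open Pool.Agent.helper45.LOCO (cut cut_le)

variable {d : ℕ → ℕ → Set Loc}

/-! ### Forcing of initial segments -/

theorem Fc.le (hd : Name d) {p q : Loc} {u : List ℕ} (h : Fc d p u) (hq : q ≤ p) :
    Fc d q u := by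
  induction u with
  | nil => trivial
  | cons x u ih => exact ⟨(hd.reg _ _).down hq h.1, ih h.2⟩

theorem Fc.suf {p : Loc} {u v : List ℕ} (h : Fc d p v) (hs : u <:+ v) : Fc d p u := by
  induction v with
  | nil =>
    rw [List.suffix_nil.1 hs]
    trivial
  | cons x v ih =>
    rcases List.suffix_cons_iff.1 hs with rfl | h'
    · exact h
    · exact ih h.2 h'

theorem Fc.eq (hd : Name d) {p : Loc} {u v : List ℕ} (hu : Fc d p u) (hv : Fc d p v)
    (h : u.length = v.length) : u = v := by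
  induction u generalizing v with
  | nil =>
    cases v with
    | nil => rfl
    | cons y v => simp at h
  | cons x u ih =>
    cases v with
    | nil => simp at h
    | cons y v =>
      have h1 : u.length = v.length := by simpa using h
      have h2 := ih hu.2 hv.2 h1
      subst h2
      have h3 : x = y := by
        by_contra hne
        have h4 := hd.disj u.length x y hne
        have h5 : p ∈ d u.length x ∩ d u.length y := ⟨hu.1, hv.1⟩
        rw [h4] at h5
        exact h5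
      rw [h3]

theorem Fc.comp (hd : Name d) {p : Loc} {u v : List ℕ} (hu : Fc d p u) (hv : Fc d p v)
    (h : u.length ≤ v.length) : u <:+ v := by
  have h1 : (v.drop (v.length - u.length)).length = u.length := by
    rw [List.length_drop]
    omega
  have h2 := List.drop_suffix (v.length - u.length) v
  rw [Fc.eq hd hu (hv.suf h2) h1.symm]
  exact h2

theorem univ_mem {A : Set (Set Loc)} (hA : IsSub A) : (univ : Set Loc) ∈ A := by
  have h := hA.sInter_mem ∅ (empty_subset _)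
  rwa [sInter_empty] at h

theorem inter_mem {A : Set (Set Loc)} (hA : IsSub A) {a b : Set Loc} (ha : a ∈ A) (hb : b ∈ A) :
    a ∩ b ∈ A := by
  have h := hA.sInter_mem {a, b} (by
    rintro c (rfl | rfl)
    · exact ha
    · exact hb)
  rwa [sInter_pair] at h

theorem empty_mem {A : Set (Set Loc)} (hA : IsSub A) : (∅ : Set Loc) ∈ A := by
  have h := hA.neg_mem _ (univ_mem hA)
  have h1 : Pool.Agent.helper45.LOC.neg (univ : Set Loc) = ∅ := by
    ext p
    constructor
    · intro hp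
      exact absurd (mem_univ p) (hp p p.refl)
    · intro hp
      exact absurd hp (notMem_empty p)
  rwa [h1] at h

theorem fc_mem {A : Set (Set Loc)} (hA : IsSub A) (hmem : ∀ n m, d n m ∈ A) (u : List ℕ) :
    {p | Fc d p u} ∈ A := by
  induction u with
  | nil =>
    have h : {p : Loc | Fc d p []} = univ := by
      ext p
      exact ⟨fun _ => mem_univ p, fun _ => trivial⟩
    rw [h]
    exact univ_mem hA
  | cons x u ih =>
    have h : {p : Loc | Fc d p (x :: u)} = d u.length x ∩ {p | Fc d p u} := by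
      ext p
      exact Iff.rfl
    rw [h]
    exact inter_mem hA (hmem _ _) ih

/-! ### Capturing -/

theorem Capt.trans {Φ : ℕ → Finset ℕ} {n : ℕ} {q r : Loc} (h : Capt Φ n q)
    (hr : r ≤ q) (h' : Capt Φ q.len r) : Capt Φ n r := by
  intro i hi hir
  rcases lt_or_ge i q.len with h1 | h1
  · rw [hr.2.1 i h1]
    exact h i hi h1
  · exact h' i h1 hir

/-- a condition with enough room can be lengthened while capturing `Φ` -/
theorem ext_capt {b : ℕ → ℕ} (hb : ∀ i, 2 * b i ≤ i) {Φ : ℕ → Finset ℕ}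
    (hΦ : ∀ i, (Φ i).card ≤ b i) (p : Loc) (hp : 2 * p.F.card ≤ p.len) (M : ℕ) :
    ∃ q ≤ p, q.F = p.F ∧ M ≤ q.len ∧ p.len ≤ q.len ∧ Capt Φ p.len q := by
  classical
  have hc : ∀ i, p.len ≤ i → i < max M p.len →
      ((p.F.image fun f => f i) ∪ Φ i).card ≤ i := by
    intro i h1 _
    have h2 := Finset.card_union_le (p.F.image fun f => f i) (Φ i)
    have h3 := Finset.card_image_le (s := p.F) (f := fun f => f i)
    have h4 := hΦ i
    have h5 := hb i
    omega
  refine ⟨p.ext (max M p.len) (fun i => (p.F.image fun f => f i) ∪ Φ i) p.F hc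
    (p.card_F.trans (le_max_right _ _)), p.ext_le _ _ _ _ _ (le_max_right _ _)
    (Finset.Subset.refl _) ?_, rfl, le_max_left _ _, le_max_right _ _, ?_⟩
  · intro f hf i _ _
    exact Finset.mem_union_left _ (Finset.mem_image_of_mem _ hf)
  · intro i h1 _
    show Φ i ⊆ (if i < p.len then p.s i else (p.F.image fun f => f i) ∪ Φ i)
    rw [if_neg (not_lt.2 h1)]
    exact Finset.subset_union_right

/-- robust totality for longer conditions -/
theorem Robust.long (hd : Name d) {b : ℕ → ℕ} (hb : ∀ i, 2 * b i ≤ i) {p0 : Loc}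
    (hr : Robust b p0 d) {Φ : ℕ → Finset ℕ} (hΦ : ∀ i, (Φ i).card ≤ b i) (n M : ℕ) {p : Loc}
    (hp : p ≤ p0) (hp2 : 2 * p.F.card ≤ p.len) :
    ∃ q ≤ p, 2 * q.F.card ≤ q.len ∧ M ≤ q.len ∧ Capt Φ p.len q ∧ ∃ m, q ∈ d n m := by
  obtain ⟨q, hq, hq2, hc, m, hm⟩ := hr Φ hΦ n p hp hp2
  obtain ⟨q', hq', hF, hM, hl, hc'⟩ := ext_capt hb hΦ q hq2 M
  exact ⟨q', Loc.trans hq' hq, by rw [hF]; omega, hM, hc.trans hq' hc', m,
    (hd.reg _ _).down hq' hm⟩

/-- robust totality for initial parts -/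
theorem Robust.pre (hd : Name d) {b : ℕ → ℕ} (hb : ∀ i, 2 * b i ≤ i) {p0 : Loc}
    (hr : Robust b p0 d) {Φ : ℕ → Finset ℕ} (hΦ : ∀ i, (Φ i).card ≤ b i) (k : ℕ) {p : Loc}
    (hp : p ≤ p0) (hp2 : 2 * p.F.card ≤ p.len) :
    ∃ q ≤ p, 2 * q.F.card ≤ q.len ∧ Capt Φ p.len q ∧ ∃ u : List ℕ, u.length = k ∧ Fc d q u := by
  induction k with
  | zero =>
    refine ⟨p, p.refl, hp2, fun i h1 h2 => ?_, [], rfl, trivial⟩
    omega
  | succ k ih =>
    obtain ⟨q, hq, hq2, hc, u, hu, hfu⟩ := ih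
    obtain ⟨q', hq', hq2', -, hc', m, hm⟩ := hr.long hd hb hΦ k 0 (Loc.trans hq hp) hq2
    refine ⟨q', Loc.trans hq' hq, hq2', hc.trans hq' hc', m :: u, by rw [List.length_cons, hu],
      ?_, hfu.le hd hq'⟩
    rw [hu]
    exact hm

/-! ### Bad nodes -/

theorem Sub.refl (t : ℕ) (F : Set (ℕ → ℕ)) : Sub t F F :=
  fun f hf => ⟨f, hf, fun _ _ => rfl⟩

theorem Sub.of_subset {t : ℕ} {F F' : Set (ℕ → ℕ)} (h : F ⊆ F') : Sub t F F' :=
  fun f hf => ⟨f, h hf, fun _ _ => rfl⟩

theorem Sub.trans {t : ℕ} {F F' F'' : Set (ℕ → ℕ)} (h : Sub t F F')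
    (h' : Sub t F' F'') : Sub t F F'' := by
  intro f hf
  obtain ⟨g, hg, hfg⟩ := h f hf
  obtain ⟨k, hk, hgk⟩ := h' g hg
  exact ⟨k, hk, fun n hn => (hfg n hn).trans (hgk n hn)⟩

theorem Sub.le {t t' : ℕ} {F F' : Set (ℕ → ℕ)} (h : Sub t' F F') (ht : t ≤ t') :
    Sub t F F' := by
  intro f hf
  obtain ⟨g, hg, hfg⟩ := h f hf
  exact ⟨g, hg, fun n hn => hfg n (hn.trans_le ht)⟩

theorem Ok.mono {L : ℕ} {A : ℕ → Finset ℕ} {T : Tr} {t t' : ℕ} {F F' : Set (ℕ → ℕ)}
    {u : List ℕ} (h : Ok d L A T t' F u) (ht : t ≤ t') (hF : Sub t F F') :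
    Ok d L A T t F' u := by
  cases T with
  | kill F1 => exact ⟨h.1, (h.2.1.le ht).trans hF, h.2.2⟩
  | node F1 n c => exact ⟨h.1, (h.2.1.le ht).trans hF, h.2.2⟩

/-- goodness is inherited by larger times and smaller families -/
theorem Good.mono {L : ℕ} {A : ℕ → Finset ℕ} {t t' : ℕ} {F F' : Set (ℕ → ℕ)} {u : List ℕ}
    (h : Good d L A t F' u) (ht : t ≤ t') (hF : Sub t F F') : Good d L A t' F u :=
  fun T hT => h T (hT.mono ht hF)

theorem Good.reach {L : ℕ} {A : ℕ → Finset ℕ} {t : ℕ} {F : Set (ℕ → ℕ)} {u : List ℕ}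
    (h : Good d L A t F u) {F' : Finset (ℕ → ℕ)} (hc : 2 * F'.card ≤ u.length)
    (hF : Sub t (F' : Set (ℕ → ℕ)) F) : Reach d L A (F' : Set (ℕ → ℕ)) u := by
  by_contra hcon
  exact h (.kill F') ⟨hc, hF, hcon⟩

/-- good nodes have many good successors -/
theorem Good.succ {L : ℕ} {A : ℕ → Finset ℕ} {t : ℕ} {F : Set (ℕ → ℕ)} {u : List ℕ}
    (h : Good d L A t F u) {F' : Finset (ℕ → ℕ)} (hc : 2 * F'.card ≤ u.length)
    (hF : Sub t (F' : Set (ℕ → ℕ)) F) (n : ℕ) :
    ∃ x ≥ n, ∃ t', Good d L A t' (F' : Set (ℕ → ℕ)) (x :: u) := by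
  classical
  by_contra hcon
  push Not at hcon
  have h1 : ∀ x t', ∃ T, n ≤ x → Ok d L A T t' (F' : Set (ℕ → ℕ)) (x :: u) := by
    intro x t'
    by_cases hx : n ≤ x
    · have h2 := hcon x hx t'
      unfold Good at h2
      push Not at h2
      obtain ⟨T, hT⟩ := h2
      exact ⟨T, fun _ => hT⟩
    · exact ⟨.kill ∅, fun h' => absurd h' hx⟩
  choose c hc' using h1
  exact h (.node F' n c) ⟨hc, hF, fun x hx t' => hc' x t' hx⟩

end Pool.Agent.helper56.RT
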