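import Pool.Agent.helper56.RT.Basic
import Pool.Agent.helper56.CI.Color
import Pool.Agent.helper45.LOC.Bound

/-!
# Robustly total names, module RT-Colour: the colouring of the successors of a node

The same proof as `CI/Colour.lean` / `HM/Colour.lean` (theorem `exists_colour`), with `Good d L A t F u`
of `RT/Defs.lean` (only `Good.mono`, `Good.succ`, `Sub.of_subset` and the fact that `Good` depends only
on `A` below `L` are used).  See the header of `CI/Colour.lean` for the paper proof.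
-/

set_option autoImplicit false

namespace Pool.Agent.helper56.RT

open Set
open Pool.Agent.helper45.LOC (Loc)

variable {d : ℕ → ℕ → Set Loc}

/-- `Reach` depends only on `A` below `L` -/
theorem colour_reach_congr {L : ℕ} {A A' : ℕ → Finset ℕ} (h : ∀ n < L, A n = A' n)
    {F : Set (ℕ → ℕ)} {w : List ℕ} (hc : Reach d L A F w) : Reach d L A' F w := by
  obtain ⟨r, h0, h1, h2, h3⟩ := hc
  exact ⟨r, h0, fun n hn => (h1 n hn).trans (h n hn), h2, h3⟩

/-- `Ok` depends only on `A` below `L` -/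
theorem colour_ok_congr {L : ℕ} {A A' : ℕ → Finset ℕ} (h : ∀ n < L, A n = A' n) (T : Tr) :
    ∀ {t : ℕ} {F : Set (ℕ → ℕ)} {w : List ℕ}, Ok d L A T t F w → Ok d L A' T t F w := by
  induction T with
  | kill F' =>
    intro t F w hok
    exact ⟨hok.1, hok.2.1, fun hc => hok.2.2 (colour_reach_congr (fun n hn => (h n hn).symm) hc)⟩
  | node F' n c ih =>
    intro t F w hok
    exact ⟨hok.1, hok.2.1, fun x hx t' => ih x t' (hok.2.2 x hx t')⟩

/-- `Good` depends only on `A` below `L` -/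
theorem colour_good_congr {L : ℕ} {A A' : ℕ → Finset ℕ} (h : ∀ n < L, A n = A' n) {t : ℕ}
    {F : Set (ℕ → ℕ)} {w : List ℕ} (hg : Good d L A t F w) : Good d L A' t F w :=
  fun T hT => hg T (colour_ok_congr (fun n hn => (h n hn).symm) T hT)

/-- the colouring by intervals -/
theorem colour_intervals (h : ℕ → ℕ) : ∃ Z : ℕ → ℕ, (∀ m, {a | Z a ≤ m}.Finite) ∧
    ∀ S : Set ℕ, (∃ m0, ∀ m ≥ m0, ∃ a ∈ S, m ≤ a ∧ a < h m) →
      ∃ f, ∀ k ≥ f, ∃ a ∈ S, Z a = k := by
  classical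
  let b : ℕ → ℕ := fun k => Nat.rec 0 (fun _ a => max (a + 1) (h a)) k
  have hb : ∀ k, b (k + 1) = max (b k + 1) (h (b k)) := fun k => rfl
  have hmono : StrictMono b := strictMono_nat_of_lt_succ fun k => by
    rw [hb]
    exact (Nat.lt_succ_self _).trans_le (le_max_left _ _)
  have hne : ∀ x, {k | x < b (k + 1)}.Nonempty := fun x => ⟨x, by
    have := hmono.id_le (x + 1)
    simp only [id] at this
    show x < b (x + 1)
    omega⟩
  refine ⟨fun x => sInf {k | x < b (k + 1)}, fun m => ?_, fun S hS => ?_⟩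
  · refine (finite_Iio (b (m + 1))).subset fun x hx => ?_
    have h1 : x < b (sInf {k | x < b (k + 1)} + 1) := Nat.sInf_mem (hne x)
    have h2 : sInf {k | x < b (k + 1)} ≤ m := hx
    exact h1.trans_le (hmono.monotone (Nat.add_le_add_right h2 1))
  · obtain ⟨m0, hm0⟩ := hS
    refine ⟨m0, fun k hk => ?_⟩
    have h0 := hmono.id_le k
    simp only [id] at h0
    obtain ⟨a, ha, h1, h2⟩ := hm0 (b k) (by omega)
    refine ⟨a, ha, le_antisymm (Nat.sInf_le ?_) ?_⟩
    · show a < b (k + 1)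
      rw [hb]
      exact h2.trans_le (le_max_right _ _)
    · by_contra hcon
      push Not at hcon
      have h3 : a < b (sInf {k | a < b (k + 1)} + 1) := Nat.sInf_mem (hne a)
      have h4 : b (sInf {k | a < b (k + 1)} + 1) ≤ b k := hmono.monotone hcon
      omega

/-- the restriction of a real to `[0, P)` -/
def colourRs (P : ℕ) (f : ℕ → ℕ) : Fin P → ℕ := fun i => f i

/-- the slalom with the finite stem `a` -/
def colourStem {L : ℕ} (a : Fin L → Finset ℕ) (n : ℕ) : Finset ℕ :=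
  if h : n < L then a ⟨n, h⟩ else ∅

/-- hypothesis (H) for the stem `a` and the set `Q` of restrictions -/
def ColourH (d : ℕ → ℕ → Set Loc) (w : List ℕ) (L : ℕ) (a : Fin L → Finset ℕ) (t : ℕ)
    (Q : Finset (Fin t → ℕ)) : Prop :=
  ∀ F : Finset (ℕ → ℕ), (∀ f ∈ F, colourRs t f ∈ Q) → 2 * F.card ≤ w.length → ∀ n,
    ∃ x ≥ n, ∃ t', Good d L (colourStem a) t' (F : Set (ℕ → ℕ)) (x :: w)

/-- the sets `W G` -/
def colourW (d : ℕ → ℕ → Set Loc) (w : List ℕ) (K : ℕ) (L : ℕ) (a : Fin L → Finset ℕ) (t : ℕ)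
    (Q : Finset (Fin t → ℕ)) (G : Fin K → ℕ → ℕ) : Set ℕ :=
  {x | ColourH d w L a t Q → 4 * K ≤ w.length → (∀ k, colourRs t (G k) ∈ Q) →
    ∃ t', Good d L (colourStem a) t' (range G) (x :: w)}

theorem colour_open (w : List ℕ) (K L : ℕ) (a : Fin L → Finset ℕ) (t : ℕ)
    (Q : Finset (Fin t → ℕ)) (x : ℕ) (G : Fin K → ℕ → ℕ) (hx : x ∈ colourW d w K L a t Q G) :
    ∃ l, ∀ G', (∀ k, ∀ n < l, G' k n = G k n) → x ∈ colourW d w K L a t Q G' := by
  by_cases hH : ColourH d w L a t Q ∧ 4 * K ≤ w.length ∧ ∀ k, colourRs t (G k) ∈ Q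
  · obtain ⟨t', ht'⟩ := hx hH.1 hH.2.1 hH.2.2
    refine ⟨t', fun G' hG' _ _ _ => ⟨t', ht'.mono le_rfl ?_⟩⟩
    rintro f ⟨k, rfl⟩
    exact ⟨G k, ⟨k, rfl⟩, fun n hn => hG' k n hn⟩
  · refine ⟨t, fun G' hG' h1 h2 h3 => absurd ⟨h1, h2, fun k => ?_⟩ hH⟩
    have h4 : colourRs t (G k) = colourRs t (G' k) := by
      funext i
      exact (hG' k i i.2).symm
    rw [h4]
    exact h3 k

theorem colour_inf (w : List ℕ) (K L : ℕ) (a : Fin L → Finset ℕ) (t : ℕ)
    (Q : Finset (Fin t → ℕ)) (G G' : Fin K → ℕ → ℕ) :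
    (colourW d w K L a t Q G ∩ colourW d w K L a t Q G').Infinite := by
  classical
  refine Set.infinite_of_forall_exists_gt fun n => ?_
  by_cases hH : ColourH d w L a t Q ∧ 4 * K ≤ w.length
  · let S : (Fin K → ℕ → ℕ) → Finset (ℕ → ℕ) := fun G =>
      if ∀ k, colourRs t (G k) ∈ Q then Finset.univ.image G else ∅
    have hS1 : ∀ G, (S G).card ≤ K := by
      intro G
      show (if ∀ k, colourRs t (G k) ∈ Q then Finset.univ.image G else ∅).card ≤ K
      split_ifs with h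
      · refine Finset.card_image_le.trans ?_
        rw [Finset.card_univ, Fintype.card_fin]
      · simp
    have hS2 : ∀ G, ∀ f ∈ S G, colourRs t f ∈ Q := by
      intro G f hf
      have hf' : f ∈ (if ∀ k, colourRs t (G k) ∈ Q then Finset.univ.image G else ∅) := hf
      split_ifs at hf' with h
      · obtain ⟨k, -, rfl⟩ := Finset.mem_image.1 hf'
        exact h k
      · exact absurd hf' (Finset.notMem_empty f)
    have hS3 : ∀ G, (∀ k, colourRs t (G k) ∈ Q) → range G ⊆ (S G : Set (ℕ → ℕ)) := by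
      intro G hG
      rintro f ⟨k, rfl⟩
      show G k ∈ (if ∀ k, colourRs t (G k) ∈ Q then Finset.univ.image G else ∅)
      rw [if_pos hG]
      exact Finset.mem_image_of_mem _ (Finset.mem_univ k)
    obtain ⟨x, hx, t', hgood⟩ := hH.1 (S G ∪ S G') (by
        intro f hf
        rcases Finset.mem_union.1 hf with hf | hf
        · exact hS2 G f hf
        · exact hS2 G' f hf) (by
        have h1 := Finset.card_union_le (S G) (S G')
        have h2 := hS1 G
        have h3 := hS1 G'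
        have h4 := hH.2
        omega) (n + 1)
    refine ⟨x, ⟨?_, ?_⟩, by omega⟩
    · intro _ _ hG
      refine ⟨t', hgood.mono le_rfl (Sub.of_subset ?_)⟩
      refine (hS3 G hG).trans ?_
      intro f hf
      exact Finset.mem_coe.2 (Finset.mem_union_left _ (Finset.mem_coe.1 hf))
    · intro _ _ hG
      refine ⟨t', hgood.mono le_rfl (Sub.of_subset ?_)⟩
      refine (hS3 G' hG).trans ?_
      intro f hf
      exact Finset.mem_coe.2 (Finset.mem_union_right _ (Finset.mem_coe.1 hf))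
  · refine ⟨n + 1, ⟨fun h1 h2 _ => absurd ⟨h1, h2⟩ hH, fun h1 h2 _ => absurd ⟨h1, h2⟩ hH⟩,
      Nat.lt_succ_self n⟩

theorem exists_colour (d : ℕ → ℕ → Set Loc) (w : List ℕ) : ∃ Z : ℕ → ℕ,
    (∀ m, {x | Z x ≤ m}.Finite) ∧
    ∀ (L : ℕ) (A : ℕ → Finset ℕ) (F : Finset (ℕ → ℕ)), 4 * F.card ≤ w.length →
      (∃ t, Good d L A t (F : Set (ℕ → ℕ)) w) →
      ∃ f, ∀ k ≥ f, ∃ x, Z x = k ∧ ∃ t', Good d L A t' (F : Set (ℕ → ℕ)) (x :: w) := by
  classical
  let ι : Type := ℕ × ((L : ℕ) × (Fin L → Finset ℕ)) × ((t : ℕ) × Finset (Fin t → ℕ))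
  have hcount : Countable ι := by
    show Countable (ℕ × ((L : ℕ) × (Fin L → Finset ℕ)) × ((t : ℕ) × Finset (Fin t → ℕ)))
    infer_instance
  have hbd : ∀ t : ι, Pool.Agent.helper45.LOCO.Bd
      (colourW d w t.1 t.2.1.1 t.2.1.2 t.2.2.1 t.2.2.2) univ := by
    intro t
    exact Pool.Agent.helper56.CI.color_open _
      (fun x G hx => colour_open w t.1 t.2.1.1 t.2.1.2 t.2.2.1 t.2.2.2 x G hx)
      (fun G G' => colour_inf w t.1 t.2.1.1 t.2.1.2 t.2.2.1 t.2.2.2 G G')
  choose h hh using hbd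
  obtain ⟨g, hg⟩ := Pool.Agent.helper45.LOC.exists_above h
  obtain ⟨Z, hZ1, hZ2⟩ := colour_intervals g
  refine ⟨Z, hZ1, fun L A F hF hgood => ?_⟩
  obtain ⟨t, hgood⟩ := hgood
  have hstem : ∀ n < L, colourStem (fun i : Fin L => A i) n = A n := by
    intro n hn
    unfold colourStem
    rw [dif_pos hn]
  have hH : ColourH d w L (fun i : Fin L => A i) t (F.image (colourRs t)) := by
    intro F' hF' hc n
    have hsub : Sub t (F' : Set (ℕ → ℕ)) (F : Set (ℕ → ℕ)) := by
      intro f hf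
      obtain ⟨f', hf', he⟩ := Finset.mem_image.1 (hF' f (Finset.mem_coe.1 hf))
      exact ⟨f', Finset.mem_coe.2 hf', fun m hm => (congrFun he ⟨m, hm⟩).symm⟩
    obtain ⟨x, hx, t', hgx⟩ := hgood.succ hc hsub n
    exact ⟨x, hx, t', colour_good_congr (fun m hm => (hstem m hm).symm) hgx⟩
  let G : Fin F.card → ℕ → ℕ := fun k => (F.equivFin.symm k : ℕ → ℕ)
  have hGr : range G = (F : Set (ℕ → ℕ)) := by
    ext f
    constructor
    · rintro ⟨k, rfl⟩
      exact Finset.mem_coe.2 (F.equivFin.symm k).2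
    · intro hf
      refine ⟨F.equivFin ⟨f, Finset.mem_coe.1 hf⟩, ?_⟩
      show ((F.equivFin.symm (F.equivFin ⟨f, Finset.mem_coe.1 hf⟩) : F) : ℕ → ℕ) = f
      rw [Equiv.symm_apply_apply]
  have hGQ : ∀ k, colourRs t (G k) ∈ F.image (colourRs t) := by
    intro k
    exact Finset.mem_image_of_mem _ (F.equivFin.symm k).2
  let t0 : ι := (F.card, ⟨L, fun i => A i⟩, ⟨t, F.image (colourRs t)⟩)
  obtain ⟨m0, hm0⟩ := hh t0 G (mem_univ _)
  obtain ⟨m1, hm1⟩ := Filter.eventually_atTop.1 (hg t0)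
  obtain ⟨f, hf⟩ := hZ2 (colourW d w F.card L (fun i : Fin L => A i) t
    (F.image (colourRs t)) G) ⟨max m0 m1, fun m hm => by
      obtain ⟨x, hx, h1, h2⟩ := hm0 m ((le_max_left _ _).trans hm)
      exact ⟨x, hx, h1, h2.trans_le (hm1 m ((le_max_right _ _).trans hm))⟩⟩
  refine ⟨f, fun k hk => ?_⟩
  obtain ⟨x, hx, hxk⟩ := hf k hk
  obtain ⟨t', h3⟩ := hx hH hF hGQ
  refine ⟨x, hxk, t', ?_⟩
  rw [hGr] at h3
  exact colour_good_congr hstem h3

end Pool.Agent.helper56.RT
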