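import Pool.Agent.helper56.RT.Basic

/-!
# Robustly total names, module RT-Far: there are good nodes far away
-/

set_option autoImplicit false

namespace Pool.Agent.helper56.RT

open Set
open Pool.Agent.helper45.LOC (Loc Loc.refl Loc.trans)
open Pool.Agent.helper45.LOCO (cut cut_le)
open Pool.Agent.helper56.CI (code pre pre_length)

variable {d : ℕ → ℕ → Set Loc}

theorem length_le_code (v : List ℕ) : v.length ≤ code v := Encodable.length_le_encode v

/-- the time at which the reals of the node `v` are added -/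
def tt (N : ℕ → ℕ) (v : List ℕ) : ℕ := max v.length (N (code v))

/-- the reals of a tree -/
def Tr.fam : Tr → Finset (ℕ → ℕ)
  | .kill F => F
  | .node F _ _ => F

/-- the number of a tree -/
def Tr.num : Tr → ℕ
  | .kill _ => 0
  | .node _ n _ => n

/-- the successor of a tree -/
def Tr.child : Tr → ℕ → ℕ → Tr
  | .kill F, _, _ => .kill F
  | .node _ _ c, x, t => c x t

/-- the tree at a node if we start with `T` at the nodes of length `j` -/
def cur (N : ℕ → ℕ) (T : List ℕ → Tr) (j : ℕ) : List ℕ → Tr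
  | [] => T []
  | x :: w => if j ≤ w.length then (cur N T j w).child x (tt N (x :: w)) else T (x :: w)

theorem cur_start (N : ℕ → ℕ) (T : List ℕ → Tr) {j : ℕ} {v : List ℕ} (h : v.length = j) :
    cur N T j v = T v := by
  cases v with
  | nil => rfl
  | cons x w =>
    show (if j ≤ w.length then _ else _) = _
    rw [List.length_cons] at h
    rw [if_neg (by omega)]

theorem cur_cons (N : ℕ → ℕ) (T : List ℕ → Tr) {j : ℕ} {w : List ℕ} (h : j ≤ w.length)
    (x : ℕ) : cur N T j (x :: w) = (cur N T j w).child x (tt N (x :: w)) := by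
  show (if j ≤ w.length then _ else _) = _
  rw [if_pos h]

/-- the maximum of the numbers at `w` -/
def bnd (N : ℕ → ℕ) (T : List ℕ → Tr) (w : List ℕ) : ℕ :=
  (Finset.range (w.length + 1)).sup fun j => (cur N T j w).num

theorem le_bnd (N : ℕ → ℕ) (T : List ℕ → Tr) {j : ℕ} {w : List ℕ} (h : j ≤ w.length) :
    (cur N T j w).num ≤ bnd N T w :=
  Finset.le_sup (f := fun j => (cur N T j w).num) (Finset.mem_range.2 (Nat.lt_succ_of_le h))

open Classical in
/-- the reals which are added for the node with code `c` -/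
noncomputable def smc (N : ℕ → ℕ) (T : List ℕ → Tr) (j c : ℕ) : Finset (ℕ → ℕ) :=
  (Encodable.decode₂ (List ℕ) c).elim ∅ fun v =>
    if 2 * (cur N T j v).fam.card ≤ v.length then (cur N T j v).fam else ∅

theorem smc_card (N : ℕ → ℕ) (T : List ℕ → Tr) (j c : ℕ) : (smc N T j c).card ≤ c := by
  unfold smc
  rcases h : Encodable.decode₂ (List ℕ) c with _ | v
  · simp
  · have h1 : code v = c := Encodable.mem_decode₂.1 h
    have h2 := length_le_code v
    show (if 2 * (cur N T j v).fam.card ≤ v.length then (cur N T j v).fam else ∅).card ≤ c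
    split_ifs with h3
    · omega
    · simp

theorem smc_code (N : ℕ → ℕ) (T : List ℕ → Tr) (j : ℕ) {v : List ℕ}
    (h : 2 * (cur N T j v).fam.card ≤ v.length) :
    smc N T j (code v) = (cur N T j v).fam := by
  have h1 : Encodable.decode₂ (List ℕ) (code v) = some v := Encodable.mem_decode₂.2 rfl
  unfold smc
  rw [h1]
  show (if 2 * (cur N T j v).fam.card ≤ v.length then (cur N T j v).fam else ∅) = _
  rw [if_pos h]

open Classical in
/-- the slalom which captures all the reals of the strategy -/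
noncomputable def big (b N : ℕ → ℕ) (T : List ℕ → Tr) (j : ℕ) (i : ℕ) : Finset ℕ :=
  ((Finset.range (Nat.sqrt (b i))).biUnion fun c => smc N T j c).image fun f => f i

theorem big_card (b N : ℕ → ℕ) (T : List ℕ → Tr) (j i : ℕ) : (big b N T j i).card ≤ b i := by
  classical
  unfold big
  refine Finset.card_image_le.trans ?_
  obtain ⟨r, hr⟩ : ∃ r, r = Nat.sqrt (b i) := ⟨_, rfl⟩
  have h2 : ((Finset.range (Nat.sqrt (b i))).biUnion fun c => smc N T j c).card ≤
      (Finset.range (Nat.sqrt (b i))).card * r := by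
    refine Finset.card_biUnion_le_card_mul _ _ _ fun c hc => ?_
    have h3 := smc_card N T j c
    have h4 := Finset.mem_range.1 hc
    omega
  rw [Finset.card_range, ← hr] at h2
  have h3 : r * r ≤ b i := by
    rw [hr]
    exact Nat.sqrt_le _
  rw [← hr]
  exact h2.trans h3

theorem big_fam {b N : ℕ → ℕ} (hN : ∀ c, ∀ i ≥ N c, (c + 1) ^ 2 ≤ b i) {T : List ℕ → Tr}
    {j : ℕ} {v : List ℕ} (hv : 2 * (cur N T j v).fam.card ≤ v.length) {f : ℕ → ℕ}
    (hf : f ∈ (cur N T j v).fam) {i : ℕ} (ht : tt N v ≤ i) : f i ∈ big b N T j i := by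
  classical
  unfold big
  refine Finset.mem_image_of_mem _ (Finset.mem_biUnion.2
    ⟨code v, Finset.mem_range.2 ?_, ?_⟩)
  · exact Nat.le_sqrt'.2 (hN (code v) i ((le_max_right _ _).trans ht))
  · rw [smc_code N T j hv]
    exact hf

theorem far_good (hd : Name d) {b : ℕ → ℕ} (hb : ∀ i, 2 * b i ≤ i)
    (hbt : ∀ k, ∃ N, ∀ i ≥ N, k ≤ b i) {p0 : Loc} (hrob : Robust b p0 d)
    (htd : TreeDom d p0) {q : Loc} (hq : q ≤ p0)
    (M : ℕ) : ∃ u : List ℕ, M ≤ u.length ∧ ∃ t, Good d q.len q.s t (q.F : Set (ℕ → ℕ)) u := by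
  classical
  by_contra hcon
  push Not at hcon
  obtain ⟨N, hN⟩ : ∃ N : ℕ → ℕ, ∀ c, ∀ i ≥ N c, (c + 1) ^ 2 ≤ b i := by
    choose N hN using fun c => hbt ((c + 1) ^ 2)
    exact ⟨N, hN⟩
  have h1 : ∀ u : List ℕ, ∃ T, M ≤ u.length →
      Ok d q.len q.s T (tt N u) (q.F : Set (ℕ → ℕ)) u := by
    intro u
    by_cases hu : M ≤ u.length
    · have h2 := hcon u hu (tt N u)
      unfold Good at h2
      push Not at h2
      obtain ⟨T, hT⟩ := h2
      exact ⟨T, fun _ => hT⟩
    · exact ⟨.kill ∅, fun h => absurd h hu⟩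
  choose T hT using h1
  obtain ⟨q1, hq1, N0, hN0⟩ := htd (bnd N T) q hq
  obtain ⟨q2, hq2, hl2, hF2⟩ := q1.long (max q1.len (2 * q1.F.card)) (le_max_left _ _)
  have hq2q := Loc.trans hq2 hq1
  have hroom2 : 2 * q2.F.card ≤ q2.len := by
    rw [hl2, hF2]
    exact le_max_right _ _
  obtain ⟨j, hj⟩ : ∃ j, j = M + N0 + q2.len := ⟨_, rfl⟩
  obtain ⟨Φ, hΦ⟩ : ∃ Φ, Φ = big b N T j := ⟨_, rfl⟩
  have hΦb : ∀ i, (Φ i).card ≤ b i := by
    rw [hΦ]
    exact big_card b N T j
  have hq2p0 : q2 ≤ p0 := Loc.trans hq2q hq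
  -- the sequence of conditions
  have hseq : ∀ (k : ℕ) (r : {r : Loc // r ≤ q2 ∧ 2 * r.F.card ≤ r.len}),
      ∃ r' : {r : Loc // r ≤ q2 ∧ 2 * r.F.card ≤ r.len}, r'.1 ≤ r.1 ∧ k + 1 ≤ r'.1.len ∧
        Capt Φ r.1.len r'.1 ∧ ∃ m, r'.1 ∈ d k m := by
    rintro k ⟨r, hr, hr2⟩
    obtain ⟨r', h2, h3, h4, h5, h6⟩ := hrob.long hd hb hΦb k (k + 1) (Loc.trans hr hq2p0) hr2
    exact ⟨⟨r', Loc.trans h2 hr, h3⟩, h2, h4, h5, h6⟩
  choose nx hnx1 hnx2 hnx3 hnx4 using hseq
  let rs : ℕ → {r : Loc // r ≤ q2 ∧ 2 * r.F.card ≤ r.len} := fun k =>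
    Nat.rec ⟨q2, q2.refl, hroom2⟩ (fun k r => nx k r) k
  have hrs0 : rs 0 = ⟨q2, q2.refl, hroom2⟩ := rfl
  have hrs1 : ∀ k, rs (k + 1) = nx k (rs k) := fun k => rfl
  have hle1 : ∀ k, (rs (k + 1)).1 ≤ (rs k).1 := fun k => hnx1 k (rs k)
  have hval : ∀ k, ∃ m, (rs (k + 1)).1 ∈ d k m := fun k => hnx4 k (rs k)
  choose y hy using hval
  have hlen : ∀ k, k ≤ (rs k).1.len := by
    intro k
    rcases k with _ | k
    · exact Nat.zero_le _
    · exact hnx2 k (rs k)
  have hfc : ∀ k, Fc d (rs k).1 (pre y k) := by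
    intro k
    induction k with
    | zero => trivial
    | succ k ih =>
      refine ⟨?_, ih.le hd (hle1 k)⟩
      rw [pre_length]
      exact hy k
  have hcapt : ∀ k, Capt Φ q2.len (rs k).1 := by
    intro k
    induction k with
    | zero =>
      intro i h2 h3
      have h4 : i < q2.len := h3
      omega
    | succ k ih => exact ih.trans (hle1 k) (hnx3 k (rs k))
  have hbnd : ∀ k, N0 ≤ k → bnd N T (pre y k) ≤ y k := fun k hk =>
    hN0 (rs (k + 1)).1 (Loc.trans (rs (k + 1)).2.1 hq2) (pre y k) (y k)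
      (by rw [pre_length]; exact hk) (hfc (k + 1))
  -- the descent
  have hcap : ∀ (k : ℕ) (Fp : Set (ℕ → ℕ)), j ≤ k →
      2 * (cur N T j (pre y k)).fam.card ≤ (pre y k).length →
      Sub (tt N (pre y k)) ((cur N T j (pre y k)).fam : Set (ℕ → ℕ)) Fp →
      (∀ f ∈ Fp, ∀ k' i, q.len ≤ i → i < (rs k').1.len → f i ∈ (rs k').1.s i) →
      ∀ f ∈ (cur N T j (pre y k)).fam, ∀ k' i, q.len ≤ i → i < (rs k').1.len →
        f i ∈ (rs k').1.s i := by
    intro k Fp hk h2 h3 h4 f hf k' i hi hi'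
    rcases lt_or_ge i (tt N (pre y k)) with h5 | h5
    · obtain ⟨g, hg, hfg⟩ := h3 f (Finset.mem_coe.2 hf)
      rw [hfg i h5]
      exact h4 g hg k' i hi hi'
    · have h6 : (pre y k).length ≤ tt N (pre y k) := le_max_left _ _
      rw [pre_length] at h6
      refine hcapt k' i (by omega) hi' ?_
      rw [hΦ]
      exact big_fam hN h2 hf h5
  have key : ∀ (T' : Tr) (k : ℕ) (Fp : Set (ℕ → ℕ)), j ≤ k → T' = cur N T j (pre y k) →
      Ok d q.len q.s T' (tt N (pre y k)) Fp (pre y k) →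
      (∀ f ∈ Fp, ∀ k' i, q.len ≤ i → i < (rs k').1.len → f i ∈ (rs k').1.s i) → False := by
    intro T'
    induction T' with
    | kill F' =>
      intro k Fp hk hT' hOk hFp
      obtain ⟨h2, h3, h4⟩ := hOk
      have hfam : (cur N T j (pre y k)).fam = F' := by rw [← hT']; rfl
      have hF' := hcap k Fp hk (by rw [hfam]; exact h2) (by rw [hfam]; exact h3) hFp
      rw [hfam] at hF'
      rw [pre_length] at h2
      have hroom := (rs k).2.2
      have hlk := hlen k
      have hcard : ((rs k).1.F ∪ F').card ≤ (rs k).1.len := by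
        refine (Finset.card_union_le _ _).trans ?_
        omega
      have hle : cut (rs k).1 (rs k).1.len le_rfl ((rs k).1.F ∪ F') hcard ≤ (rs k).1 :=
        cut_le (rs k).1.refl _ _ le_rfl Finset.subset_union_left
      have hq' : (rs k).1 ≤ q := Loc.trans (rs k).2.1 hq2q
      refine h4 ⟨cut (rs k).1 (rs k).1.len le_rfl ((rs k).1.F ∪ F') hcard, hq'.1, hq'.2.1,
        fun f hf => ⟨Finset.mem_union_right _ (Finset.mem_coe.1 hf), fun n h7 h8 => ?_⟩,
        (hfc k).le hd hle⟩
      exact hF' f (Finset.mem_coe.1 hf) k n h7 h8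
    | node F' n c ih =>
      intro k Fp hk hT' hOk hFp
      obtain ⟨h2, h3, h4⟩ := hOk
      have hfam : (cur N T j (pre y k)).fam = F' := by rw [← hT']; rfl
      have hF' := hcap k Fp hk (by rw [hfam]; exact h2) (by rw [hfam]; exact h3) hFp
      rw [hfam] at hF'
      have hnum : n ≤ y k := by
        have h5 := le_bnd N T (j := j) (w := pre y k) (by rw [pre_length]; exact hk)
        rw [← hT'] at h5
        have h6 : n ≤ bnd N T (pre y k) := h5
        exact h6.trans (hbnd k (by omega))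
      refine ih (y k) (tt N (pre y (k + 1))) (k + 1) (F' : Set (ℕ → ℕ)) (by omega) ?_
        (h4 (y k) hnum (tt N (pre y (k + 1)))) fun f hf => hF' f (Finset.mem_coe.1 hf)
      show _ = cur N T j (y k :: pre y k)
      rw [cur_cons N T (by rw [pre_length]; exact hk), ← hT']
      rfl
  refine key (T (pre y j)) j (q.F : Set (ℕ → ℕ)) le_rfl (cur_start N T (pre_length _ _)).symm
    (hT (pre y j) (by rw [pre_length]; omega)) fun f hf k' i hi hi' => ?_
  exact (Loc.trans (rs k').2.1 hq2q).2.2.2 f (Finset.mem_coe.1 hf) i hi hi'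

end Pool.Agent.helper56.RT
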