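import Pool.Agent.helper45.LOCO.Nodes
import Pool.Agent.helper56.RT.FarGood
import Pool.Agent.helper56.RT.Colour

/-!
# Robustly total names, module RT-Machine: the machine which reads the Hechler real
-/

set_option autoImplicit false

namespace Pool.Agent.helper56.RT

open Set
open Pool.Agent.helper45.LOC (Loc Hec IsSub Dominating Loc.refl Loc.trans)
open Pool.Agent.helper45.LOCO (AddsHechler IsReal Hechler cut cut_le dec dec_code)
open Pool.Agent.helper56.CI (code)

/-- the state of the machine: the list `a` of length `na`, the list `c` of length `nc`, and the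
current run of zeros -/
structure St where
  a : ℕ → ℕ
  na : ℕ
  c : ℕ → ℕ
  nc : ℕ
  r : ℕ

/-- the value `k` is read -/
def St.read (S : St) (k : ℕ) : St :=
  if k % 2 = 1 then
    ⟨Function.update S.a S.na (k / 2), S.na + 1, Function.update S.c S.nc S.r, S.nc + 1, 0⟩
  else ⟨Function.update S.a S.na (k / 2), S.na + 1, S.c, S.nc, S.r + 1⟩

/-- the lists are prolonged -/
def Later (S S' : St) : Prop :=
  S.na ≤ S'.na ∧ (∀ i < S.na, S'.a i = S.a i) ∧ S.nc ≤ S'.nc ∧ ∀ i < S.nc, S'.c i = S.c i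

theorem Later.refl (S : St) : Later S S := ⟨le_rfl, fun _ _ => rfl, le_rfl, fun _ _ => rfl⟩

theorem Later.trans {S T U : St} (h : Later S T) (h' : Later T U) : Later S U :=
  ⟨h.1.trans h'.1, fun i hi => (h'.2.1 i (hi.trans_le h.1)).trans (h.2.1 i hi),
    h.2.2.1.trans h'.2.2.1,
    fun i hi => (h'.2.2.2 i (hi.trans_le h.2.2.1)).trans (h.2.2.2 i hi)⟩

theorem St.read_na (S : St) (k : ℕ) : (S.read k).na = S.na + 1 := by
  unfold St.read
  split_ifs <;> rfl

theorem St.read_a (S : St) (k : ℕ) : (S.read k).a = Function.update S.a S.na (k / 2) := by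
  unfold St.read
  split_ifs <;> rfl

theorem St.read_odd (S : St) {k : ℕ} (h : k % 2 = 1) : (S.read k).nc = S.nc + 1 ∧
    (S.read k).c = Function.update S.c S.nc S.r ∧ (S.read k).r = 0 := by
  unfold St.read
  rw [if_pos h]
  exact ⟨rfl, rfl, rfl⟩

theorem St.read_even (S : St) {k : ℕ} (h : k % 2 = 0) : (S.read k).nc = S.nc ∧
    (S.read k).c = S.c ∧ (S.read k).r = S.r + 1 := by
  unfold St.read
  rw [if_neg (by omega)]
  exact ⟨rfl, rfl, rfl⟩

theorem Later.read (S : St) (k : ℕ) : Later S (S.read k) := by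
  refine ⟨by rw [S.read_na]; omega, fun i hi => ?_, ?_, fun i hi => ?_⟩
  · rw [S.read_a, Function.update_of_ne (by omega)]
  · rcases Nat.mod_two_eq_zero_or_one k with h | h
    · rw [(S.read_even h).1]
    · rw [(S.read_odd h).1]
      omega
  · rcases Nat.mod_two_eq_zero_or_one k with h | h
    · rw [(S.read_even h).2.1]
    · rw [(S.read_odd h).2.1, Function.update_of_ne (by omega)]

/-- the situation -/
structure Dat where
  d : ℕ → ℕ → Set Loc
  hd : Name d
  b : ℕ → ℕ
  hb : ∀ i, 2 * b i ≤ i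
  hbt : ∀ k, ∃ N, ∀ i ≥ N, k ≤ b i
  p0 : Loc
  hrob : Robust b p0 d
  htd : TreeDom d p0
  Z : List ℕ → ℕ → ℕ
  fin : ∀ w m, {x | Z w x ≤ m}.Finite
  col : ∀ (w : List ℕ) (L : ℕ) (A : ℕ → Finset ℕ) (F : Finset (ℕ → ℕ)),
    4 * F.card ≤ w.length → (∃ t, Good d L A t (F : Set (ℕ → ℕ)) w) →
      ∃ f, ∀ k ≥ f, ∃ x, Z w x = k ∧ ∃ t', Good d L A t' (F : Set (ℕ → ℕ)) (x :: w)

namespace Dat

variable (D : Dat)

/-- the state at a node -/
def st : List ℕ → St
  | [] => ⟨fun _ => 0, 0, fun _ => 0, 0, 0⟩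
  | x :: w => (st w).read (D.Z w x)

theorem st_cons (x : ℕ) (w : List ℕ) : D.st (x :: w) = (D.st w).read (D.Z w x) := rfl

variable {D}

theorem later {σ τ : List ℕ} (h : σ <:+ τ) : Later (D.st σ) (D.st τ) := by
  induction τ with
  | nil => rw [List.suffix_nil.1 h]; exact Later.refl _
  | cons x τ ih =>
    rcases List.suffix_cons_iff.1 h with rfl | h'
    · exact Later.refl _
    · exact (ih h').trans (Later.read _ _)

theorem na_eq (σ : List ℕ) : (D.st σ).na = σ.length := by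
  induction σ with
  | nil => rfl
  | cons x σ ih => rw [st_cons, St.read_na, ih, List.length_cons]

theorem nc_le (σ : List ℕ) : (D.st σ).nc ≤ (D.st σ).na := by
  induction σ with
  | nil => exact le_rfl
  | cons x σ ih =>
    rw [st_cons, St.read_na]
    rcases Nat.mod_two_eq_zero_or_one (D.Z σ x) with h1 | h1
    · rw [((D.st σ).read_even h1).1]
      omega
    · rw [((D.st σ).read_odd h1).1]
      omega

/-- the values of the list `a` -/
theorem a_val {x : ℕ} {σ τ : List ℕ} (h : x :: σ <:+ τ) :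
    (D.st τ).a σ.length = D.Z σ x / 2 := by
  rw [(later (D := D) h).2.1 σ.length (by rw [na_eq, List.length_cons]; omega), st_cons,
    St.read_a, na_eq, Function.update_self]

theorem exists_suf {τ : List ℕ} {i : ℕ} (h : i < τ.length) :
    ∃ (x : ℕ) (σ : List ℕ), σ.length = i ∧ x :: σ <:+ τ := by
  have h1 : (τ.drop (τ.length - (i + 1))).length = i + 1 := by
    rw [List.length_drop]
    omega
  have h2 := List.drop_suffix (τ.length - (i + 1)) τ
  rcases h3 : τ.drop (τ.length - (i + 1)) with _ | ⟨x, σ⟩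
  · rw [h3] at h1
    simp at h1
  · rw [h3] at h1 h2
    exact ⟨x, σ, by simpa using h1, h2⟩

variable (D) in
/-- the conditions which decide that the `i`-th value which is read is `m` -/
def O (i m : ℕ) : Set Loc :=
  {p | ∃ σ, Fc D.d p σ ∧ i < (D.st σ).nc ∧ (D.st σ).a i + (D.st σ).c i = m}

variable (D) in
/-- the name of the real which is read -/
def zn (i m : ℕ) : Set Loc := {p | ∀ q ≤ p, ∃ r ≤ q, r ∈ D.O i m}

theorem O_down {i m : ℕ} {p q : Loc} (h : q ≤ p) (hp : p ∈ D.O i m) : q ∈ D.O i m := by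
  obtain ⟨σ, h2, h3, h4⟩ := hp
  exact ⟨σ, h2.le D.hd h, h3, h4⟩

theorem O_val {σ τ : List ℕ} (h : σ <:+ τ) {i : ℕ} (hi : i < (D.st σ).nc) :
    (D.st τ).a i + (D.st τ).c i = (D.st σ).a i + (D.st σ).c i := by
  have h1 := later (D := D) h
  rw [h1.2.1 i (hi.trans_le (nc_le σ)), h1.2.2.2 i hi]

theorem O_disj {i m m' : ℕ} {p : Loc} (h : p ∈ D.O i m) (h' : p ∈ D.O i m') : m = m' := by
  obtain ⟨σ, h2, h3, h4⟩ := h
  obtain ⟨σ', h2', h3', h4'⟩ := h'
  rcases le_total σ.length σ'.length with hl | hl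
  · rw [← h4, ← h4', O_val (h2.comp D.hd h2' hl) h3]
  · rw [← h4, ← h4', O_val (h2'.comp D.hd h2 hl) h3']

theorem zn_mem {A : Set (Set Loc)} (hA : IsSub A) (hmem : ∀ n m, D.d n m ∈ A) (i m : ℕ) :
    D.zn i m ∈ A := by
  let T : Set (Set Loc) := {a | ∃ σ, i < (D.st σ).nc ∧ (D.st σ).a i + (D.st σ).c i = m ∧
    a = {p | Fc D.d p σ}}
  have hT : T ⊆ A := by
    rintro _ ⟨σ, -, -, rfl⟩
    exact fc_mem hA hmem σ
  have h1 := hA.join_mem hT
  have h2 : {p : Loc | ∀ q ≤ p, ∃ a ∈ T, ∃ r ≤ q, r ∈ a} = D.zn i m := by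
    ext p
    constructor
    · intro hp q hq
      obtain ⟨_, ⟨σ, hi, hm, rfl⟩, r, hr, hrv⟩ := hp q hq
      exact ⟨r, hr, σ, hrv, hi, hm⟩
    · intro hp q hq
      obtain ⟨r, hr, σ, a2, a3, a4⟩ := hp q hq
      exact ⟨_, ⟨σ, a3, a4, rfl⟩, r, hr, a2⟩
  rw [← h2]
  exact h1

theorem le_code_cons (x : ℕ) (w : List ℕ) : x ≤ code (x :: w) := by
  show x ≤ Encodable.encode (x :: w)
  rw [Encodable.encode_list_cons]
  exact (Nat.left_le_pair _ _).trans (Nat.le_succ _)

theorem hechler : Hechler D.p0 D.zn := by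
  classical
  intro E hE p hp
  have hch : ∀ t : List ℕ, ∃ c : Hec,
      (∃ c' ∈ E, c'.len = t.length ∧ ∀ i < c'.len, c'.s i = t.getD i 0) →
      c ∈ E ∧ c.len = t.length ∧ ∀ i < c.len, c.s i = t.getD i 0 := by
    intro t
    by_cases h : ∃ c' ∈ E, c'.len = t.length ∧ ∀ i < c'.len, c'.s i = t.getD i 0
    · obtain ⟨c', h1, h2, h3⟩ := h
      exact ⟨c', fun _ => ⟨h1, h2, h3⟩⟩
    · exact ⟨⟨0, fun _ => 0, fun _ => 0⟩, fun h' => absurd h' h⟩
  choose e he using hch
  have hh : ∀ w : List ℕ, ∃ h, ∀ x ≥ h, ∀ t : List ℕ, code t ≤ code w →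
      2 * (e t).f w.length + 1 < D.Z w x := by
    intro w
    obtain ⟨m, hm⟩ : ∃ m, m = (Finset.range (code w + 1)).sup (dec fun t => (e t).f w.length) :=
      ⟨_, rfl⟩
    obtain ⟨b, hb⟩ := (D.fin w (2 * m + 1)).bddAbove
    refine ⟨b + 1, fun x hx t ht => ?_⟩
    have h1 : (e t).f w.length ≤ m := by
      have h2 := Finset.le_sup (f := dec fun t => (e t).f w.length)
        (s := Finset.range (code w + 1)) (b := Pool.Agent.helper45.LOCO.code t)
        (Finset.mem_range.2 (Nat.lt_succ_of_le ht))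
      rw [dec_code, ← hm] at h2
      exact h2
    by_contra hcon
    push Not at hcon
    have h3 : x ≤ b := hb (show D.Z w x ≤ 2 * m + 1 by omega)
    omega
  choose h hh using hh
  obtain ⟨q, hq, N, hN⟩ := D.htd h p hp
  obtain ⟨w0, hw0, hG0⟩ := far_good D.hd D.hb D.hbt D.hrob D.htd (Loc.trans hq hp)
    (N + q.len + 4 * q.F.card)
  -- configurations
  have hstep : ∀ w : {w : List ℕ // w0 <:+ w ∧ ∃ t, Good D.d q.len q.s t (q.F : Set (ℕ → ℕ)) w},
      ∃ f : ℕ, ∀ k,
      ∃ w' : {w : List ℕ // w0 <:+ w ∧ ∃ t, Good D.d q.len q.s t (q.F : Set (ℕ → ℕ)) w},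
        f ≤ k → ∃ x, w'.1 = x :: w.1 ∧ D.Z w.1 x = k := by
    rintro ⟨w, hw, hG⟩
    have hl := hw.length_le
    obtain ⟨f, hf⟩ := D.col w q.len q.s q.F (by omega) hG
    refine ⟨f, fun k => ?_⟩
    by_cases hk : f ≤ k
    · obtain ⟨x, hx, hG'⟩ := hf k hk
      exact ⟨⟨x :: w, hw.trans (List.suffix_cons _ _), hG'⟩, fun _ => ⟨x, rfl, hx⟩⟩
    · exact ⟨⟨w, hw, hG⟩, fun h' => absurd h' hk⟩
  choose f nx hnx' using hstep
  have hnx : ∀ c k, f c ≤ k → c.1 <:+ (nx c k).1 ∧
      D.st (nx c k).1 = (D.st c.1).read k := by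
    intro c k hk
    obtain ⟨x, h1, h2⟩ := hnx' c k hk
    rw [h1, st_cons, h2]
    exact ⟨List.suffix_cons _ _, rfl⟩
  obtain ⟨c0, hc0⟩ : ∃ c0 : {w : List ℕ // w0 <:+ w ∧
    ∃ t, Good D.d q.len q.s t (q.F : Set (ℕ → ℕ)) w}, c0.1 = w0 := ⟨⟨w0, List.suffix_rfl, hG0⟩, rfl⟩
  obtain ⟨c1, hc1⟩ : ∃ c1, c1 = nx c0 (2 * f c0 + 1) := ⟨_, rfl⟩
  have h0 := hnx c0 (2 * f c0 + 1) (by omega)
  rw [← hc1] at h0
  obtain ⟨S, hS⟩ : ∃ S, S = D.st c1.1 := ⟨_, rfl⟩
  have hr0 : S.r = 0 := by
    rw [hS, h0.2]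
    exact (St.read_odd _ (by omega)).2.2
  have hSn : S.nc ≤ S.na := by
    rw [hS]
    exact nc_le _
  -- the finite sets of configurations
  let L : ℕ → Finset {w : List ℕ // w0 <:+ w ∧
      ∃ t, Good D.d q.len q.s t (q.F : Set (ℕ → ℕ)) w} := fun l =>
    Nat.rec {c1} (fun _ M => (M.image fun c => nx c (2 * M.sup f)) ∪
      M.image fun c => nx c (2 * M.sup f + 1)) l
  let B : ℕ → ℕ := fun l => (L l).sup f
  have hL0 : c1 ∈ L 0 := Finset.mem_singleton_self _
  have hLs : ∀ l, L (l + 1) = ((L l).image fun c => nx c (2 * B l)) ∪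
      (L l).image fun c => nx c (2 * B l + 1) := fun l => rfl
  have hLB : ∀ l, ∀ c ∈ L l, f c ≤ B l := fun l c hc => Finset.le_sup hc
  have hLn : ∀ l, ∀ c ∈ L l, ∀ b < 2, nx c (2 * B l + b) ∈ L (l + 1) := by
    intro l c hc b hb
    rw [hLs, Finset.mem_union]
    rcases (by omega : b = 0 ∨ b = 1) with rfl | rfl
    · exact Or.inl (Finset.mem_image_of_mem _ hc)
    · exact Or.inr (Finset.mem_image_of_mem _ hc)
  -- the Hechler condition
  obtain ⟨t0, ht0E, ht0⟩ := hE ⟨S.na, fun i => if i < S.nc then S.a i + S.c i else S.a i,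
    fun i => B (i - S.na)⟩
  obtain ⟨t1, t2, -, t4⟩ := ht0
  replace t1 : S.na ≤ t0.len := t1
  replace t2 : ∀ i < S.na, t0.s i = if i < S.nc then S.a i + S.c i else S.a i := t2
  replace t4 : ∀ i, S.na ≤ i → i < t0.len → B (i - S.na) ≤ t0.s i := t4
  obtain ⟨t, ht⟩ : ∃ t, t = (List.range t0.len).map t0.s := ⟨_, rfl⟩
  have htl : t.length = t0.len := by rw [ht]; simp
  have htg : ∀ i < t0.len, t.getD i 0 = t0.s i := by
    intro i hi
    rw [ht, List.getD_eq_getElem _ _ (by simpa using hi)]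
    simp
  obtain ⟨heE, hel, hes⟩ := he t ⟨t0, ht0E, htl.symm, fun i hi => (htg i hi).symm⟩
  obtain ⟨g, hg⟩ : ∃ g, g = (e t).f := ⟨_, rfl⟩
  let I : {w : List ℕ // w0 <:+ w ∧
      ∃ t, Good D.d q.len q.s t (q.F : Set (ℕ → ℕ)) w} → Prop := fun c =>
    Later S (D.st c.1) ∧
    (∀ i, S.na ≤ i → i < (D.st c.1).na → i < t0.len → (D.st c.1).a i = B (i - S.na)) ∧
    (∀ i, t0.len ≤ i → i < (D.st c.1).na → g i ≤ (D.st c.1).a i) ∧
    ((D.st c.1).na ≤ t0.len → c ∈ L ((D.st c.1).na - S.na))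
  have hI1 : I c1 := by
    refine ⟨by rw [hS]; exact Later.refl _, fun i a b _ => ?_, fun i a b => ?_, fun _ => ?_⟩
    · rw [← hS] at b
      omega
    · rw [← hS] at b
      omega
    · rw [← hS, Nat.sub_self]
      exact hL0
  -- one value beyond the length of `t`
  have far : ∀ c, I c → t0.len ≤ (D.st c.1).na → ∀ k, f c ≤ k → g (D.st c.1).na ≤ k / 2 →
      I (nx c k) := by
    intro c hc hlt k hk hgk
    obtain ⟨j2, j3, j4, j5⟩ := hc
    have h3 := hnx c k hk
    obtain ⟨c', hc'⟩ : ∃ c', c' = nx c k := ⟨_, rfl⟩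
    rw [← hc'] at h3
    rw [← hc']
    have hna : (D.st c'.1).na = (D.st c.1).na + 1 := by
      rw [h3.2]
      exact St.read_na _ _
    have ha : (D.st c'.1).a = Function.update (D.st c.1).a (D.st c.1).na (k / 2) := by
      rw [h3.2]
      exact St.read_a _ _
    have hlater : Later (D.st c.1) (D.st c'.1) := by
      rw [h3.2]
      exact Later.read _ _
    refine ⟨j2.trans hlater, fun i a b1 b2 => ?_, fun i a b1 => ?_, fun h4 => ?_⟩
    · rw [ha, Function.update_of_ne (by omega)]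
      exact j3 i a (by omega) b2
    · rw [ha]
      by_cases hi : i = (D.st c.1).na
      · rw [hi, Function.update_self]
        exact hgk
      · rw [Function.update_of_ne hi]
        exact j4 i a (by omega)
    · omega
  -- one bit
  have bit : ∀ c, I c → ∀ b < 2, ∃ c', I c' ∧ ∃ k, k % 2 = b ∧
      D.st c'.1 = (D.st c.1).read k := by
    intro c hc b hb
    by_cases hlt : (D.st c.1).na < t0.len
    · obtain ⟨j2, j3, j4, j5⟩ := hc
      have jn := j2.1
      have hcL := j5 hlt.le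
      obtain ⟨l, hl⟩ : ∃ l, l = (D.st c.1).na - S.na := ⟨_, rfl⟩
      rw [← hl] at hcL
      have h3 := hnx c (2 * B l + b) (by have := hLB l c hcL; omega)
      obtain ⟨c', hc'⟩ : ∃ c', c' = nx c (2 * B l + b) := ⟨_, rfl⟩
      rw [← hc'] at h3
      have hna : (D.st c'.1).na = (D.st c.1).na + 1 := by
        rw [h3.2]
        exact St.read_na _ _
      have ha : (D.st c'.1).a = Function.update (D.st c.1).a (D.st c.1).na (B l) := by
        rw [h3.2, St.read_a]
        have : (2 * B l + b) / 2 = B l := by omega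
        rw [this]
      have hlater : Later (D.st c.1) (D.st c'.1) := by
        rw [h3.2]
        exact Later.read _ _
      refine ⟨c', ⟨j2.trans hlater, fun i a b1 b2 => ?_, fun i a b1 => ?_,
        fun _ => ?_⟩, 2 * B l + b, by omega, h3.2⟩
      · rw [ha]
        by_cases hi : i = (D.st c.1).na
        · rw [hi, Function.update_self, hl]
        · rw [Function.update_of_ne hi]
          exact j3 i a (by omega) b2
      · rw [hna] at b1
        omega
      · rw [hna]
        have e1 : (D.st c.1).na + 1 - S.na = l + 1 := by omega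
        rw [e1, hc']
        exact hLn l c hcL b hb
    · refine ⟨nx c (2 * (g (D.st c.1).na + f c) + b), far c hc (by omega) _ (by omega) (by omega),
        2 * (g (D.st c.1).na + f c) + b, by omega, (hnx c _ (by omega)).2⟩
  -- a run of zeros
  have zeros : ∀ v c, I c → ∃ c', I c' ∧ (D.st c'.1).nc = (D.st c.1).nc ∧
      (D.st c'.1).c = (D.st c.1).c ∧ (D.st c'.1).r = (D.st c.1).r + v := by
    intro v
    induction v with
    | zero => exact fun c hc => ⟨c, hc, rfl, rfl, rfl⟩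
    | succ v ih =>
      intro c hc
      obtain ⟨c', hc', e1, e2, e3⟩ := ih c hc
      obtain ⟨c2, hc2, k, hk, hst⟩ := bit c' hc' 0 (by omega)
      obtain ⟨g1, g2, g3⟩ := St.read_even (D.st c'.1) hk
      refine ⟨c2, hc2, ?_, ?_, ?_⟩
      · rw [hst]
        exact g1.trans e1
      · rw [hst]
        exact g2.trans e2
      · rw [hst, g3, e3]
        omega
  -- the realization of `t`
  let A' : ℕ → ℕ := fun i => if i < S.na then S.a i else B (i - S.na)
  have real : ∀ m, S.nc ≤ m → m ≤ t0.len → ∃ c, I c ∧ (D.st c.1).nc = m ∧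
      (D.st c.1).r = 0 ∧ ∀ i, S.nc ≤ i → i < m → (D.st c.1).c i = t0.s i - A' i := by
    intro m hm
    induction m, hm using Nat.le_induction with
    | base =>
      intro _
      exact ⟨c1, hI1, by rw [hS], by rw [← hS]; exact hr0, fun i a b => by omega⟩
    | succ m hm ih =>
      intro hmt
      obtain ⟨c, hc, e1, e2, e3⟩ := ih (by omega)
      obtain ⟨c', hc', g1, g2, g3⟩ := zeros (t0.s m - A' m) c hc
      obtain ⟨c2, hc2, k, hk, hst⟩ := bit c' hc' 1 (by omega)
      obtain ⟨u1, u2, u3⟩ := St.read_odd (D.st c'.1) hk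
      refine ⟨c2, hc2, ?_, ?_, fun i a b => ?_⟩
      · rw [hst, u1, g1, e1]
      · rw [hst]
        exact u3
      · rw [hst, u2, g1, e1, g2, g3, e2]
        by_cases hi : i = m
        · rw [hi, Function.update_self]
          omega
        · rw [Function.update_of_ne hi]
          exact e3 i a (by omega)
  obtain ⟨c, hc, hcnc, -, hcc⟩ := real t0.len (hSn.trans t1) le_rfl
  have hna : t0.len ≤ (D.st c.1).na := by
    rw [← hcnc]
    exact nc_le _
  have hval : ∀ i < t0.len, (D.st c.1).a i + (D.st c.1).c i = t0.s i := by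
    obtain ⟨j2, j3, j4, -⟩ := hc
    intro i hi
    rcases lt_or_ge i S.nc with h1 | h1
    · rw [j2.2.1 i (by omega), j2.2.2.2 i h1, t2 i (by omega), if_pos h1]
    · rw [hcc i h1 hi]
      show (D.st c.1).a i + (t0.s i - if i < S.na then S.a i else B (i - S.na)) = t0.s i
      rcases lt_or_ge i S.na with h2 | h2
      · have e1 := t2 i h2
        rw [if_neg (by omega)] at e1
        rw [j2.2.1 i h2, if_pos h2]
        omega
      · have e1 := t4 i h2 hi
        rw [j3 i h2 (by omega) hi, if_neg (by omega)]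
        omega
  -- one more value, so that the code of the node is above the code of `t`
  obtain ⟨k, hk⟩ : ∃ k, k = 2 * (g (D.st c.1).na + f c +
    (Finset.range (code t)).sup (D.Z c.1) + 1) := ⟨_, rfl⟩
  have hIk := far c hc hna k (by omega) (by omega)
  obtain ⟨x, hx1, hx2⟩ := hnx' c k (by omega)
  have hst2 := (hnx c k (by omega)).2
  obtain ⟨c2, hc2⟩ : ∃ c2, c2 = nx c k := ⟨_, rfl⟩
  rw [← hc2] at hIk hx1 hst2
  have hxt : code t ≤ x := by
    by_contra hcon
    push Not at hcon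
    have h1 := Finset.le_sup (f := D.Z c.1) (Finset.mem_range.2 hcon)
    omega
  have hcode : code t ≤ code c2.1 := by
    rw [hx1]
    exact hxt.trans (le_code_cons x c.1)
  have hc2nc : (D.st c2.1).nc = t0.len := by
    rw [hst2, (St.read_even _ (by omega)).1, hcnc]
  obtain ⟨-, -, j4, -⟩ := hIk
  have hl2 := c2.2.1.length_le
  obtain ⟨tg, hgood⟩ := c2.2.2
  obtain ⟨q', hLN, hB1, hB2, hB3⟩ := hgood.reach (F' := q.F) (by omega) (Sub.refl _ _)
  have hq'q : q' ≤ q :=
    ⟨hLN, hB1, fun f hf => (hB2 f (Finset.mem_coe.2 hf)).1,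
      fun f hf i h1 h2 => (hB2 f (Finset.mem_coe.2 hf)).2 i h1 h2⟩
  have hq'at : Fc D.d q' c2.1 := hB3
  have hsufcc2 : c.1 <:+ c2.1 := by
    rw [hx1]
    exact List.suffix_cons _ _
  refine ⟨q', Loc.trans hq'q hq, e t, heE, ?_, ?_⟩
  · intro i hi r hr
    have hi' : i < t0.len := by rw [← htl, ← hel]; exact hi
    refine ⟨r, r.refl, c2.1, hq'at.le D.hd hr, by omega, ?_⟩
    rw [O_val hsufcc2 (by omega), hval i hi', hes i hi, htg i hi']
  · intro i hi m r hr hrz
    have hi' : t0.len ≤ i := by rw [← htl, ← hel]; exact hi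
    obtain ⟨r', hr', τ, a2, a3, a4⟩ := hrz r r.refl
    have hr'q : r' ≤ q' := Loc.trans hr' hr
    have e1 : Fc D.d r' c2.1 := hq'at.le D.hd hr'q
    rw [← hg]
    rcases le_total τ.length c2.1.length with h1 | h1
    · have h2 := (later (D := D) (a2.comp D.hd e1 h1)).2.2.1
      omega
    · have h2 : c2.1 <:+ τ := e1.comp D.hd a2 h1
      have h3 := nc_le (D := D) τ
      rw [na_eq] at h3
      have h4 : g i ≤ (D.st τ).a i := by
        rcases lt_or_ge i (D.st c2.1).na with h5 | h5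
        · rw [(later h2).2.1 i h5]
          exact j4 i hi' h5
        · rw [na_eq] at h5
          obtain ⟨y, v, hv, hyv⟩ := exists_suf (i := i) (τ := τ) (by omega)
          have hvτ : v <:+ τ := (List.suffix_cons _ _).trans hyv
          have hc2v : c2.1 <:+ v := List.suffix_of_suffix_length_le h2 hvτ (by omega)
          have h6 : h v ≤ y := by
            exact hN r' (Loc.trans hr'q hq'q) v y (by omega) (a2.suf hyv)
          have h7 := hh v y h6 t (hcode.trans (Pool.Agent.helper45.LOCO.code_suf hc2v))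
          rw [← hv, a_val hyv, hg]
          omega
      omega

theorem adds {A : Set (Set Loc)} (hA : IsSub A) (hmem : ∀ n m, D.d n m ∈ A) :
    AddsHechler A D.p0 := by
  refine ⟨D.zn, ⟨zn_mem hA hmem, ?_, ?_⟩, hechler⟩
  · intro n m m' hmm
    rw [eq_empty_iff_forall_notMem]
    rintro p ⟨hp, hp'⟩
    obtain ⟨r, hr, hrO⟩ := hp p p.refl
    obtain ⟨r', hr', hrO'⟩ := hp' r hr
    exact hmm (O_disj (O_down hr' hrO) hrO')
  · intro n p hp
    obtain ⟨q, hq, c, hc, h3, -⟩ := hechler (D := D) {c | n < c.len} (by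
      intro c
      refine ⟨⟨c.len + n + 1, fun i => if i < c.len then c.s i else c.f i, c.f⟩,
        by show n < c.len + n + 1; omega, by show c.len ≤ c.len + n + 1; omega, fun i hi => ?_,
        fun i => le_rfl, fun i hi _ => ?_⟩
      · show (if i < c.len then c.s i else c.f i) = c.s i
        rw [if_pos hi]
      · show c.f i ≤ (if i < c.len then c.s i else c.f i)
        rw [if_neg (by omega)]) p hp
    exact ⟨q, hq, _, h3 n hc⟩

end Dat

theorem machine {A : Set (Set Loc)} (hA : IsSub A) {d : ℕ → ℕ → Set Loc}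
    (hmem : ∀ n m, d n m ∈ A) (hd : Name d) {b : ℕ → ℕ} (hb : ∀ i, 2 * b i ≤ i)
    (hbt : ∀ k, ∃ N, ∀ i ≥ N, k ≤ b i) {p0 : Loc} (hrob : Robust b p0 d)
    (htd : TreeDom d p0) : AddsHechler A p0 := by
  choose Z h1 h2 using exists_colour d
  exact Dat.adds (D := ⟨d, hd, b, hb, hbt, p0, hrob, htd, Z, h1, h2⟩) hA hmem

end Pool.Agent.helper56.RT
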